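import Pool.Agent.H5.DPG.Stmts

/-!
# Row TRP of the board `dpg`
-/

set_option autoImplicit false

namespace Pool.DPG

open Filter TMLib Pool.PG

lemma trp_sub (g : Game) (X : List Bool) : fs g X ⊆ Finset.range g.length := by
  unfold fs
  exact Finset.filter_subset _ _

theorem trp_thm (h1 : BIGStmt) : TRPStmt := by
  intro g K X j q B hK hD hB hC h8 hq
  obtain ⟨hBX, hBt, -⟩ := hB
  by_cases hqj : q = j
  · subst hqj
    by_contra hcon
    push Not at hcon
    have hA : K ≤ (B.filter fun v => ¬ own g v = q).card := by
      have e1 := Finset.card_filter_add_card_filter_not (s := B) (fun v => own g v = q)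
      have e2 : (B.filter fun v => own g v = q).card ≤ (fo g X q).card := by
        refine Finset.card_le_card (fun v hv => ?_)
        rw [Finset.mem_filter] at hv
        unfold fo
        rw [Finset.mem_filter]
        exact ⟨hBX hv.1, hv.2⟩
      omega
    obtain ⟨⟨a, haA, hak⟩, -⟩ := hD K le_rfl (B.filter fun v => ¬ own g v = q) (fs g X \ B)
      (fun v hv => trp_sub g X (hBX (Finset.mem_filter.mp hv).1))
      (fun v hv => trp_sub g X (Finset.mem_sdiff.mp hv).1) hA hcon
    have hpos : 0 < ((fs g X \ B).filter fun b => b ∈ suc g a).card := by omega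
    obtain ⟨b, hb⟩ := Finset.card_pos.mp hpos
    rw [Finset.mem_filter, Finset.mem_sdiff] at hb
    rw [Finset.mem_filter] at haA
    exact hb.1.2 (hBt a haA.1 haA.2 b hb.1.1 hb.2)
  · have hb := h1 g K X j B hK hD hBX hC h8
    have hsub : fs g X \ B ⊆ (fo g X j \ B) ∪ fo g X q := by
      intro v hv
      rw [Finset.mem_sdiff] at hv
      rw [Finset.mem_union, Finset.mem_sdiff]
      unfold fo
      rw [Finset.mem_filter, Finset.mem_filter]
      by_cases hv2 : own g v = j
      · exact Or.inl ⟨⟨hv.1, hv2⟩, hv.2⟩
      · right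
        refine ⟨hv.1, ?_⟩
        cases hov : own g v <;> cases hq' : q <;> cases hj' : j <;> simp_all
    have h2 := Finset.card_le_card hsub
    have h3 := Finset.card_union_le (fo g X j \ B) (fo g X q)
    omega

end Pool.DPG
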